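import Pool.Agent.H90.STE.Stmts2

/-!
# Sticky Kakeya with shadings: CE with the exponent one
-/

set_option autoImplicit false

namespace Pool.STE

open Finset Real MeasureTheory
open scoped RealInnerProductSpace ENNReal
open Pool.Agent.H49.Ent Pool.Agent.H32.Dense Pool.STK Pool.KA
open Pool.Agent.H53.Kak (E tube)
open Pool.Agent.H53.Dns (Mx psl slp)

namespace CE1

/-! ### Scales -/

lemma pow_scale {M K r : ℕ} (hM : 1 ≤ M) :
    ((2 : ℝ) ^ (r * K))⁻¹ = (((2 : ℝ) ^ (M * K))⁻¹) ^ ((r : ℝ) / M) := by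
  have hM0 : (0 : ℝ) < M := by exact_mod_cast hM
  rw [Real.inv_rpow (by positivity), ← Real.rpow_natCast 2 (M * K), ← Real.rpow_mul (by norm_num),
    ← Real.rpow_natCast 2 (r * K)]
  congr 2
  push_cast
  field_simp

lemma rpow_cmp {x y c s : ℝ} (hx : 0 < x) (hy : 0 < y) (hc : 1 ≤ c) (h : x ≤ c * y)
    (hs0 : 0 ≤ s) (hs1 : s ≤ 1) : x ^ s ≤ c * y ^ s := by
  calc x ^ s ≤ (c * y) ^ s := Real.rpow_le_rpow hx.le h hs0
    _ = c ^ s * y ^ s := Real.mul_rpow (by linarith) hy.le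
    _ ≤ c * y ^ s := by
      refine mul_le_mul_of_nonneg_right ?_ (by positivity)
      calc c ^ s ≤ c ^ (1 : ℝ) := Real.rpow_le_rpow_of_exponent_le hc hs1
        _ = c := Real.rpow_one _

/-! ### The space of pairs -/

section Pairs

variable {ι : Type} [Fintype ι] [Nonempty ι]

/-- The space of pairs. -/
abbrev PS (S : ι → Finset ℕ) : Type := Σ i : ι, ↥(S i)

/-- `i` uniform, `t` uniform in `S i`. -/
noncomputable def pl (S : ι → Finset ℕ) (ω : PS S) : ℝ :=
  1 / ((Fintype.card ι : ℝ) * (S ω.1).card)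

lemma sum_fib (S : ι → Finset ℕ) (hS : ∀ i, 0 < (S i).card) (g : ι → ℝ) :
    ∑ ω : PS S, pl S ω * g ω.1 = ∑ i, 1 / (Fintype.card ι : ℝ) * g i := by
  rw [Fintype.sum_sigma]
  refine Finset.sum_congr rfl fun i _ => ?_
  have hc : (0 : ℝ) < (S i).card := by exact_mod_cast hS i
  have hn : (0 : ℝ) < Fintype.card ι := by exact_mod_cast Fintype.card_pos
  unfold pl
  simp only
  rw [Finset.sum_const, Finset.card_univ, Fintype.card_coe, nsmul_eq_mul]
  field_simp

lemma pl_isLaw (S : ι → Finset ℕ) (hS : ∀ i, 0 < (S i).card) : IsLaw (pl S) := by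
  refine ⟨fun ω => by unfold pl; positivity, ?_⟩
  have h := sum_fib S hS (fun _ => 1)
  simp only [mul_one] at h
  rw [h, Finset.sum_const, Finset.card_univ, nsmul_eq_mul]
  have hn : (0 : ℝ) < Fintype.card ι := by exact_mod_cast Fintype.card_pos
  field_simp

lemma pl_pos (S : ι → Finset ℕ) (hS : ∀ i, 0 < (S i).card) (ω : PS S) : 0 < pl S ω := by
  have hc : (0 : ℝ) < (S ω.1).card := by exact_mod_cast hS _
  have hn : (0 : ℝ) < Fintype.card ι := by exact_mod_cast Fintype.card_pos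
  unfold pl
  positivity

lemma law_fst (S : ι → Finset ℕ) (hS : ∀ i, 0 < (S i).card) {T : Type} (f : ι → T) (y : T) :
    law (pl S) (fun ω => f ω.1) y = law (unif ι) f y := by
  classical
  have h := sum_fib S hS (fun i => if f i = y then 1 else 0)
  unfold law unif
  have e1 : ∀ ω : PS S, (if f ω.1 = y then pl S ω else 0) =
      pl S ω * (if f ω.1 = y then 1 else 0) := fun ω => by
    split_ifs <;> simp
  have e2 : ∀ i : ι, (if f i = y then 1 / (Fintype.card ι : ℝ) else 0) =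
      1 / (Fintype.card ι : ℝ) * (if f i = y then 1 else 0) := fun i => by
    split_ifs <;> simp
  calc _ = ∑ ω : PS S, pl S ω * (if f ω.1 = y then 1 else 0) := by
        refine Finset.sum_congr rfl fun ω _ => ?_
        by_cases hh : f ω.1 = y
        · simp [hh]
        · simp [hh]
    _ = _ := h
    _ = _ := by
        refine Finset.sum_congr rfl fun i _ => ?_
        by_cases hh : f i = y
        · simp [hh]
        · simp [hh]

lemma H_fst (S : ι → Finset ℕ) (hS : ∀ i, 0 < (S i).card) {T : Type} (f : ι → T) :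
    H (pl S) (fun ω => f ω.1) = H (unif ι) f := by
  unfold H
  have h := sum_fib S hS (fun i => Real.log (law (unif ι) f (f i)))
  have e : ∀ ω : PS S, pl S ω * Real.log (law (pl S) (fun ω => f ω.1) (f ω.1)) =
      pl S ω * Real.log (law (unif ι) f (f ω.1)) := fun ω => by rw [law_fst S hS f]
  rw [Finset.sum_congr rfl fun ω _ => e ω, h]
  rfl

lemma law_inj {Ω T : Type} [Fintype Ω] (p : Ω → ℝ) {X : Ω → T} (hX : Function.Injective X)
    (ω : Ω) : law p X (X ω) = p ω := by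
  classical
  unfold law
  rw [Finset.sum_eq_single ω]
  · simp
  · intro ω' _ h
    rw [if_neg fun e => h (hX e)]
  · intro h
    exact absurd (Finset.mem_univ _) h

/-- The entropy of the time given the line. -/
lemma CH_time (S : ι → Finset ℕ) (hS : ∀ i, 0 < (S i).card) {B : ℝ}
    (hB : ∀ i, B ≤ Real.log (S i).card) :
    B ≤ CH (pl S) (fun ω : PS S => (ω.2 : ℕ)) (fun ω => ω.1) := by
  have hl := pl_isLaw S hS
  rw [CH_eq_neg_sum hl.nonneg]
  have e : ∀ ω : PS S, -Real.log (law (pl S) (fun ω : PS S => ((ω.2 : ℕ), ω.1)) ((ω.2 : ℕ), ω.1) /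
      law (pl S) (fun ω : PS S => ω.1) ω.1) = Real.log (S ω.1).card := by
    intro ω
    have h1 : law (pl S) (fun ω : PS S => ((ω.2 : ℕ), ω.1)) ((ω.2 : ℕ), ω.1) = pl S ω := by
      refine law_inj (pl S) (X := fun ω : PS S => ((ω.2 : ℕ), ω.1)) ?_ ω
      rintro ⟨i, t⟩ ⟨i', t'⟩ h
      simp only [Prod.mk.injEq] at h
      obtain ⟨h1, h2⟩ := h
      subst h2
      congr 1
      exact Subtype.ext h1
    have h2 : law (pl S) (fun ω : PS S => ω.1) ω.1 = 1 / (Fintype.card ι : ℝ) := by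
      have h3 := law_fst S hS (fun i : ι => i) ω.1
      rw [h3]
      exact law_inj (unif ι) (X := fun i : ι => i) (fun _ _ h => h) ω.1
    have hc : (0 : ℝ) < (S ω.1).card := by exact_mod_cast hS _
    have hn : (0 : ℝ) < Fintype.card ι := by exact_mod_cast Fintype.card_pos
    rw [h1, h2]
    have h4 : pl S ω / (1 / (Fintype.card ι : ℝ)) = ((S ω.1).card : ℝ)⁻¹ := by
      unfold pl
      field_simp
    rw [h4, Real.log_inv, neg_neg]
  have h5 : Ex (pl S) (fun _ => B) ≤ Ex (pl S) (fun ω =>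
      -Real.log (law (pl S) (fun ω : PS S => ((ω.2 : ℕ), ω.1)) ((ω.2 : ℕ), ω.1) /
      law (pl S) (fun ω : PS S => ω.1) ω.1)) := by
    refine Ex_mono hl.nonneg fun ω _ => ?_
    rw [e ω]
    exact hB ω.1
  rw [Ex_const hl.sum_one] at h5
  exact h5

end Pairs

/-- Rounding of the position. -/
lemma pos_close {a b u u' v v' t : ℝ} {J J' : ℕ} {s : ℝ} (hJ : J' ≤ J) (hv : |v| ≤ 1)
    (hv' : |v'| ≤ 1) (h0 : 0 ≤ t - s) (h1 : t - s ≤ ((2 : ℝ) ^ J')⁻¹)
    (ha : a = 2 ^ J * (u + t * v)) (hb : b = 2 ^ J * (u' + t * v')) (hab : ⌊a⌋ = ⌊b⌋) :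
    |((⌊(2 : ℝ) ^ J' * (u + s * v)⌋ - ⌊(2 : ℝ) ^ J' * (u' + s * v')⌋ : ℤ) : ℝ)| ≤ 4 := by
  have h2 : (0 : ℝ) < 2 ^ J' := by positivity
  have h3 : |a - b| < 1 := by
    rw [abs_lt]
    have ha1 := Int.floor_le a
    have ha2 := Int.lt_floor_add_one a
    have hb1 := Int.floor_le b
    have hb2 := Int.lt_floor_add_one b
    rw [hab] at ha1 ha2
    constructor <;> linarith
  have h4 : |(2 : ℝ) ^ J' * (u + t * v) - 2 ^ J' * (u' + t * v')| ≤ 1 := by
    have h5 : (2 : ℝ) ^ J' * (u + t * v) - 2 ^ J' * (u' + t * v') =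
        (2 ^ (J - J'))⁻¹ * (a - b) := by
      have e : (2 : ℝ) ^ J = 2 ^ (J - J') * 2 ^ J' := by
        rw [← pow_add]
        congr 1
        omega
      rw [ha, hb, e]
      field_simp
    rw [h5, abs_mul, abs_of_pos (by positivity)]
    have h6 : ((2 : ℝ) ^ (J - J'))⁻¹ ≤ 1 := inv_le_one_of_one_le₀ (one_le_pow₀ (by norm_num))
    have h7 : (0 : ℝ) ≤ ((2 : ℝ) ^ (J - J'))⁻¹ := by positivity
    nlinarith [abs_nonneg (a - b)]
  have hb : ∀ w : ℝ, |w| ≤ 1 → |(2 : ℝ) ^ J' * ((t - s) * w)| ≤ 1 := by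
    intro w hw
    rw [abs_mul, abs_mul, abs_of_pos h2, abs_of_nonneg h0]
    calc (2 : ℝ) ^ J' * ((t - s) * |w|) ≤ 2 ^ J' * (((2 : ℝ) ^ J')⁻¹ * 1) := by
          refine mul_le_mul_of_nonneg_left ?_ h2.le
          exact mul_le_mul h1 hw (abs_nonneg _) (by positivity)
      _ = 1 := by field_simp
  have h8 := hb v hv
  have h9 := hb v' hv'
  have h10 : |(2 : ℝ) ^ J' * (u + s * v) - 2 ^ J' * (u' + s * v')| ≤ 3 := by
    have e : (2 : ℝ) ^ J' * (u + s * v) - 2 ^ J' * (u' + s * v') =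
        ((2 : ℝ) ^ J' * (u + t * v) - 2 ^ J' * (u' + t * v')) - 2 ^ J' * ((t - s) * v) +
          2 ^ J' * ((t - s) * v') := by ring
    rw [e]
    have a1 := abs_add_le (((2 : ℝ) ^ J' * (u + t * v) - 2 ^ J' * (u' + t * v')) -
      2 ^ J' * ((t - s) * v)) (2 ^ J' * ((t - s) * v'))
    have a2 := abs_sub ((2 : ℝ) ^ J' * (u + t * v) - 2 ^ J' * (u' + t * v'))
      (2 ^ J' * ((t - s) * v))
    linarith
  have f1 := Int.floor_le ((2 : ℝ) ^ J' * (u + s * v))
  have f2 := Int.lt_floor_add_one ((2 : ℝ) ^ J' * (u + s * v))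
  have f3 := Int.floor_le ((2 : ℝ) ^ J' * (u' + s * v'))
  have f4 := Int.lt_floor_add_one ((2 : ℝ) ^ J' * (u' + s * v'))
  rw [abs_le] at h10
  push_cast
  rw [abs_le]
  constructor <;> linarith

/-- Conditional entropy is at most the entropy. -/
lemma CH_le_H {Ω S T : Type} [Fintype Ω] {p : Ω → ℝ} (hp : IsLaw p) (X : Ω → S) (W : Ω → T) :
    CH p X W ≤ H p X := by
  have h := subadd hp.nonneg hp.sum_one (X := X) (Y := W) (W := fun ω => (X ω, W ω))
    (fun ω ω' _ _ e => e)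
  unfold CH
  linarith

section Family

variable {ι : Type} [Fintype ι] [Nonempty ι] {d M K J : ℕ}

/-- The family of the pairs. -/
noncomputable def fam (S : ι → Finset ℕ) (hS : ∀ i, 0 < (S i).card) (u v : ι → Fin d → ℝ)
    (hv : ∀ i l, |v i l| ≤ 1) (hJ : M * K ≤ J) (hSJ : ∀ i, S i ⊆ Finset.range (2 ^ J)) :
    Fam d (M * K) where
  Ω := PS S
  ζ := Unit
  fin := inferInstance
  p := pl S
  u := fun ω => u ω.1
  d := fun ω => v ω.1
  T := fun ω => (ω.2 : ℕ) / 2 ^ (J - M * K)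
  Z := fun _ => ()
  isLaw := pl_isLaw S hS
  dir := fun ω l => hv ω.1 l
  tim := fun ω => by
    have h1 : (ω.2 : ℕ) < 2 ^ J := Finset.mem_range.mp (hSJ _ ω.2.2)
    refine Nat.div_lt_of_lt_mul ?_
    rw [← pow_add]
    have : J - M * K + M * K = J := by omega
    rw [this]
    exact h1

variable (S : ι → Finset ℕ) (hS : ∀ i, 0 < (S i).card) (u v : ι → Fin d → ℝ)
    (hv : ∀ i l, |v i l| ≤ 1) (hJ : M * K ≤ J) (hSJ : ∀ i, S i ⊆ Finset.range (2 ^ J))

include hS in
/-- The entropy of the coarse time given the index. -/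
lemma time_fst {B : ℝ} (hB : ∀ i, B ≤ Real.log (S i).card) :
    B - ((J - M * K : ℕ) : ℝ) * Real.log 2 ≤
      CH (pl S) (fun ω : PS S => (ω.2 : ℕ) / 2 ^ (J - M * K)) (fun ω => ω.1) := by
  have hl := pl_isLaw S hS
  have h1 := CH_time S hS hB
  have h2 := CH_le_add hl.nonneg (fun ω : PS S => (ω.2 : ℕ))
    (fun ω : PS S => (ω.2 : ℕ) / 2 ^ (J - M * K)) (fun ω => ω.1)
  have h3 := CH_le_card hl.nonneg hl.sum_one (fun ω : PS S => (ω.2 : ℕ))
    (fun ω : PS S => ((ω.2 : ℕ) / 2 ^ (J - M * K), ω.1))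
    (fun w => Finset.Ico (w.1 * 2 ^ (J - M * K)) (w.1 * 2 ^ (J - M * K) + 2 ^ (J - M * K)))
    (fun ω _ => by
      rw [Finset.mem_Ico]
      have hpos : 0 < 2 ^ (J - M * K) := by positivity
      have e := Nat.div_add_mod (ω.2 : ℕ) (2 ^ (J - M * K))
      have e2 := Nat.mod_lt (ω.2 : ℕ) hpos
      have e3 : (ω.2 : ℕ) / 2 ^ (J - M * K) * 2 ^ (J - M * K) =
        2 ^ (J - M * K) * ((ω.2 : ℕ) / 2 ^ (J - M * K)) := Nat.mul_comm _ _
      dsimp only
      constructor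
      · rw [e3]; omega
      · rw [e3]; omega)
  have h4 : ∀ w : ℕ, ((Finset.Ico (w * 2 ^ (J - M * K))
      (w * 2 ^ (J - M * K) + 2 ^ (J - M * K))).card : ℝ) = 2 ^ (J - M * K) := by
    intro w
    rw [Nat.card_Ico, Nat.add_sub_cancel_left]
    push_cast
    rfl
  simp only [h4] at h3
  rw [Ex_const hl.sum_one, Real.log_pow] at h3
  linarith

/-- The time is nearly uniform given the line. -/
lemma time_line {B : ℝ} (hB : ∀ i, B ≤ Real.log (S i).card) :
    B - ((J - M * K : ℕ) : ℝ) * Real.log 2 ≤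
      CH (fam S hS u v hv hJ hSJ).p (fam S hS u v hv hJ hSJ).T
        (fun ω => ((fam S hS u v hv hJ hSJ).l ω, (fam S hS u v hv hJ hSJ).Z ω)) := by
  refine (time_fst (M := M) (K := K) (J := J) S hS hB).trans ?_
  have hl := pl_isLaw S hS
  refine CH_mono_cond hl.nonneg ?_
  intro ω ω' _ _ e
  have e' : ω.1 = ω'.1 := e
  refine Prod.ext ?_ rfl
  show (u ω.1, v ω.1) = (u ω'.1, v ω'.1)
  rw [e']

/-- The position given the time: bound by the number of the lines. -/
lemma pos_card :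
    CH (fam S hS u v hv hJ hSJ).p ((fam S hS u v hv hJ hSJ).X (M * K))
      (fam S hS u v hv hJ hSJ).W ≤ Real.log (Fintype.card ι) := by
  classical
  have hl := pl_isLaw S hS
  have h1 : CH (pl S) ((fam S hS u v hv hJ hSJ).X (M * K)) (fam S hS u v hv hJ hSJ).W ≤
      CH (pl S) (fun ω : PS S => ω.1) (fam S hS u v hv hJ hSJ).W := by
    refine CH_mono_left hl.nonneg ?_
    intro ω ω' _ _ e
    have e1 : ω.1 = ω'.1 := (Prod.ext_iff.mp e).1
    have e2 : (fam S hS u v hv hJ hSJ).T ω = (fam S hS u v hv hJ hSJ).T ω' :=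
      (Prod.ext_iff.mp (Prod.ext_iff.mp e).2).1
    unfold Fam.X Fam.x Fam.t
    rw [e2]
    show fl (M * K) (fun l => u ω.1 l + _ * v ω.1 l) = fl (M * K) (fun l => u ω'.1 l + _ * v ω'.1 l)
    rw [e1]
  have h2 := CH_le_H hl (fun ω : PS S => ω.1) (fam S hS u v hv hJ hSJ).W
  have h3 := H_le_log_card hl.nonneg hl.sum_one (fun ω : PS S => ω.1) Finset.univ
    (fun _ _ => Finset.mem_univ _)
  rw [Finset.card_univ] at h3
  exact h1.trans (h2.trans h3)

/-- The position given the time: bound by the number of pairs (time, cell). -/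
lemma pos_V {B : ℝ} (hB : ∀ i, B ≤ Real.log (S i).card) (V : Finset (ℕ × (Fin d → ℤ)))
    (hV : ∀ i, ∀ t ∈ S i, (t, fl J (pt u v ((t : ℝ) / 2 ^ J) i)) ∈ V) :
    CH (fam S hS u v hv hJ hSJ).p ((fam S hS u v hv hJ hSJ).X (M * K))
      (fam S hS u v hv hJ hSJ).W ≤
      Real.log V.card + cc d - (B - ((J - M * K : ℕ) : ℝ) * Real.log 2) := by
  classical
  have hl := pl_isLaw S hS
  set F := fam S hS u v hv hJ hSJ with hF
  have h1 : CH F.p (F.X (M * K)) F.W = H F.p (fun ω => (F.X (M * K) ω, F.W ω)) - H F.p F.W := rfl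
  rw [h1]
  have h2 : B - ((J - M * K : ℕ) : ℝ) * Real.log 2 ≤ H F.p F.W := by
    refine (time_fst (M := M) (K := K) (J := J) S hS hB).trans ?_
    refine (CH_le_H hl _ _).trans ?_
    refine H_mono hl.nonneg ?_
    intro ω ω' _ _ e
    exact (Prod.ext_iff.mp e).1
  -- the point of `V`
  let Q : PS S → ℕ × (Fin d → ℤ) := fun ω =>
    ((ω.2 : ℕ), fl J (pt u v (((ω.2 : ℕ) : ℝ) / 2 ^ J) ω.1))
  have h3 : H F.p (fun ω => (F.X (M * K) ω, F.W ω)) ≤ Real.log V.card + cc d := by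
    have a1 := subadd hl.nonneg hl.sum_one (X := Q) (Y := fun ω => (F.X (M * K) ω, F.W ω))
      (W := Q) (fun ω ω' _ _ e => (Prod.ext_iff.mp e).1)
    have a2 : H (pl S) (fun ω => ((F.X (M * K) ω, F.W ω), Q ω)) =
        H (pl S) Q + CH (pl S) (fun ω => (F.X (M * K) ω, F.W ω)) Q := by
      unfold CH
      ring
    have a3 : H (pl S) (fun ω => (F.X (M * K) ω, F.W ω)) ≤
        H (pl S) (fun ω => ((F.X (M * K) ω, F.W ω), Q ω)) :=
      H_mono hl.nonneg (fun ω ω' _ _ e => (Prod.ext_iff.mp e).1)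
    have a4 := H_le_log_card hl.nonneg hl.sum_one Q V (fun ω _ => hV ω.1 _ ω.2.2)
    have a5 : CH (pl S) (fun ω => (F.X (M * K) ω, F.W ω)) Q ≤ CH (pl S) (F.X (M * K)) Q := by
      refine CH_mono_left hl.nonneg ?_
      intro ω ω' _ _ e
      have e1 := (Prod.ext_iff.mp e).1
      have e2 : Q ω = Q ω' := (Prod.ext_iff.mp e).2
      refine Prod.ext e1 ?_
      refine Prod.ext ?_ rfl
      have e3 : (ω.2 : ℕ) = (ω'.2 : ℕ) := (Prod.ext_iff.mp e2).1
      show (ω.2 : ℕ) / 2 ^ (J - M * K) = (ω'.2 : ℕ) / 2 ^ (J - M * K)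
      rw [e3]
    have a6 : CH (pl S) (F.X (M * K)) Q ≤ cc d := by
      have b1 := CH_le_vec hl.nonneg hl.sum_one (F.X (M * K)) Q (fun _ => 4) (by
        intro ω ω' _ _ e l
        have e3 : (ω.2 : ℕ) = (ω'.2 : ℕ) := (Prod.ext_iff.mp e).1
        have e4 : fl J (pt u v (((ω.2 : ℕ) : ℝ) / 2 ^ J) ω.1) =
          fl J (pt u v (((ω'.2 : ℕ) : ℝ) / 2 ^ J) ω'.1) := (Prod.ext_iff.mp e).2
        have e5 := congrFun e4 l
        have hpos : 0 < 2 ^ (J - M * K) := by positivity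
        have hd := Nat.div_add_mod (ω.2 : ℕ) (2 ^ (J - M * K))
        have hm := Nat.mod_lt (ω.2 : ℕ) hpos
        -- the times
        have ht : (((ω.2 : ℕ) : ℝ) / 2 ^ J) - (((ω.2 : ℕ) / 2 ^ (J - M * K) : ℕ) : ℝ) / 2 ^ (M * K) =
            (((ω.2 : ℕ) % 2 ^ (J - M * K) : ℕ) : ℝ) / 2 ^ J := by
          have e6 : (2 : ℝ) ^ J = 2 ^ (J - M * K) * 2 ^ (M * K) := by
            rw [← pow_add]
            congr 1
            omega
          have e7 : (((ω.2 : ℕ) : ℝ)) = 2 ^ (J - M * K) *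
              (((ω.2 : ℕ) / 2 ^ (J - M * K) : ℕ) : ℝ) +
              (((ω.2 : ℕ) % 2 ^ (J - M * K) : ℕ) : ℝ) := by
            exact_mod_cast hd.symm
          rw [e6]
          nth_rewrite 1 [e7]
          field_simp
          ring
        have ht0 : 0 ≤ (((ω.2 : ℕ) : ℝ) / 2 ^ J) -
            (((ω.2 : ℕ) / 2 ^ (J - M * K) : ℕ) : ℝ) / 2 ^ (M * K) := by
          rw [ht]
          positivity
        have ht1 : (((ω.2 : ℕ) : ℝ) / 2 ^ J) -
            (((ω.2 : ℕ) / 2 ^ (J - M * K) : ℕ) : ℝ) / 2 ^ (M * K) ≤ ((2 : ℝ) ^ (M * K))⁻¹ := by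
          rw [ht]
          have e6 : (2 : ℝ) ^ J = 2 ^ (J - M * K) * 2 ^ (M * K) := by
            rw [← pow_add]
            congr 1
            omega
          have e8 : (((ω.2 : ℕ) % 2 ^ (J - M * K) : ℕ) : ℝ) ≤ 2 ^ (J - M * K) := by
            exact_mod_cast hm.le
          rw [e6, div_le_iff₀ (by positivity)]
          calc _ ≤ (2 : ℝ) ^ (J - M * K) := e8
            _ = _ := by field_simp
        have hT : (F.T ω' : ℝ) = F.T ω := by
          show (((ω'.2 : ℕ) / 2 ^ (J - M * K) : ℕ) : ℝ) = (((ω.2 : ℕ) / 2 ^ (J - M * K) : ℕ) : ℝ)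
          rw [e3]
        have key := pos_close (a := 2 ^ J * (u ω.1 l + (((ω.2 : ℕ) : ℝ) / 2 ^ J) * v ω.1 l))
          (b := 2 ^ J * (u ω'.1 l + (((ω.2 : ℕ) : ℝ) / 2 ^ J) * v ω'.1 l)) hJ
          (hv ω.1 l) (hv ω'.1 l) ht0 ht1 rfl rfl (by
            rw [← e3] at e5
            exact e5)
        have k1 : F.X (M * K) ω l = ⌊(2 : ℝ) ^ (M * K) * (u ω.1 l +
            ((((ω.2 : ℕ) / 2 ^ (J - M * K) : ℕ) : ℝ) / 2 ^ (M * K)) * v ω.1 l)⌋ := rfl
        have k2 : F.X (M * K) ω' l = ⌊(2 : ℝ) ^ (M * K) * (u ω'.1 l +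
            ((((ω.2 : ℕ) / 2 ^ (J - M * K) : ℕ) : ℝ) / 2 ^ (M * K)) * v ω'.1 l)⌋ := by
          have k3 : F.X (M * K) ω' l = ⌊(2 : ℝ) ^ (M * K) * (u ω'.1 l +
            ((((ω'.2 : ℕ) / 2 ^ (J - M * K) : ℕ) : ℝ) / 2 ^ (M * K)) * v ω'.1 l)⌋ := rfl
          rw [k3, e3]
        rw [k1, k2]
        exact key)
      rw [Ex_const hl.sum_one] at b1
      refine b1.trans ?_
      unfold cc
      refine mul_le_mul_of_nonneg_left (Real.log_le_log (by norm_num) (by norm_num))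
        (Nat.cast_nonneg _)
    have a7 : H (pl S) (fun ω => (F.X (M * K) ω, F.W ω)) ≤ Real.log V.card + cc d := by
      linarith
    exact a7
  linarith

end Family

end CE1

/-- **CE with the exponent one**. -/
theorem ce1 (hEPT : EPTStmt) (hTS2 : TS2Stmt) (hTD2 : TD2Stmt) (hTCD : TCDStmt)
    (hSPA : SPAStmt) : CE1Stmt := by
  classical
  intro d hd ε L c₁ c₂ hε hL hc₁ hc₂
  have hd0 : (0 : ℝ) < d := by exact_mod_cast hd
  have hlog2 : 0 < Real.log 2 := Real.log_pos (by norm_num)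
  obtain ⟨α, hα⟩ : ∃ α, α = ε / (2 * (d : ℝ)) := ⟨_, rfl⟩
  obtain ⟨R, hR⟩ : ∃ R, R = ε * Real.log 2 / 2 := ⟨_, rfl⟩
  have hα0 : 0 < α := by rw [hα]; positivity
  have hR0 : 0 < R := by rw [hR]; positivity
  obtain ⟨M, hM, θ₀, hθ₀, K₀, hG⟩ := hEPT d (1 + α) R (by linarith) hR0
  have hM0 : (0 : ℝ) < M := by exact_mod_cast hM
  obtain ⟨CT', hCT', hT'⟩ := hTCD d
  obtain ⟨CT, hCTdef⟩ : ∃ CT, CT = max CT' 1 := ⟨_, rfl⟩
  have hCT1 : 1 ≤ CT := by rw [hCTdef]; exact le_max_right _ _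
  have hCTT : CT' ≤ CT := by rw [hCTdef]; exact le_max_left _ _
  have hCT0 : 0 < CT := by linarith
  obtain ⟨c₄, hc₄def⟩ : ∃ c₄, c₄ = c₁⁻¹ + 2 ^ M * c₂ + 1 := ⟨_, rfl⟩
  have hc1' : 0 < c₁⁻¹ := inv_pos.mpr hc₁
  have hc2' : 0 < 2 ^ M * c₂ := by positivity
  have hc₄1 : 1 ≤ c₄ := by rw [hc₄def]; linarith
  have hc₄a : c₁⁻¹ ≤ c₄ := by rw [hc₄def]; linarith
  have hc₄b : 2 ^ M * c₂ ≤ c₄ := by rw [hc₄def]; linarith
  obtain ⟨C₇, hC₇, h7⟩ := hTD2 d c₄ (by linarith)
  obtain ⟨C₅, hC₅, h5⟩ := hTS2 d L c₄ hL hc₄1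
  have hC50 : 0 < C₅ := by linarith
  obtain ⟨lc₂, hlc₂⟩ : ∃ x, x = |Real.log c₂| := ⟨_, rfl⟩
  obtain ⟨lc₁, hlc₁⟩ : ∃ x, x = |Real.log c₁| := ⟨_, rfl⟩
  have hlc20 : 0 ≤ lc₂ := by rw [hlc₂]; exact abs_nonneg _
  have hlc10 : 0 ≤ lc₁ := by rw [hlc₁]; exact abs_nonneg _
  obtain ⟨θ, hθdef⟩ : ∃ θ, θ = θ₀ / (lc₂ + 2 * Real.log 2) := ⟨_, rfl⟩
  have hθ : 0 < θ := by rw [hθdef]; positivity
  obtain ⟨G, hGdef⟩ : ∃ G, G = C₇ + 2 * cc d + M * Real.log C₅ + M * Real.log 2 +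
    α * Real.log CT + R / Real.log 2 * lc₁ := ⟨_, rfl⟩
  obtain ⟨N₀, hN₀⟩ : ∃ N₀, N₀ = M * (K₀ + 1) := ⟨_, rfl⟩
  obtain ⟨C₀, hC₀⟩ : ∃ C₀, C₀ = max (Real.exp G) (CT * (c₂ * 2 ^ N₀) ^ d) := ⟨_, rfl⟩
  refine ⟨M, hM, θ, max C₀ 1, hθ, le_max_right _ _, ?_⟩
  intro δ J hδ hδ1 hJ1 hJ2 ι _ _ c e k g q hcell hsep A hcov lam S hlam hS V hV
  have hCpos : 0 < max C₀ 1 := lt_of_lt_of_le one_pos (le_max_right _ _)
  have hδε : 1 ≤ δ ^ (-ε) := by
    rw [Real.rpow_neg hδ.le]
    exact (one_le_inv₀ (Real.rpow_pos_of_pos hδ _)).mpr (Real.rpow_le_one hδ.le hδ1.le hε.le)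
  have hA1 : ∀ r ∈ Finset.Ico 1 M, 1 ≤ A r := by
    intro r hr
    rw [Finset.mem_Ico] at hr
    exact (hcov r hr.1 hr.2).1
  have hPn : 0 < ∏ r ∈ Finset.Ico 1 M, A r :=
    Finset.prod_pos fun r hr => hA1 r hr
  have hPr : (1 : ℝ) ≤ ∏ r ∈ Finset.Ico 1 M, (A r : ℝ) := by
    have : ((1 : ℕ) : ℝ) ≤ ((∏ r ∈ Finset.Ico 1 M, A r : ℕ) : ℝ) := by
      exact_mod_cast Nat.succ_le_of_lt hPn
    push_cast at this
    exact this
  have hV0 : (0 : ℝ) ≤ V.card := Nat.cast_nonneg _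
  have hlam0 : 0 < lam := (Real.rpow_pos_of_pos hδ _).trans_le hlam
  have hn0 : (0 : ℝ) < Fintype.card ι := by exact_mod_cast Fintype.card_pos
  have hnT : (Fintype.card ι : ℝ) ≤ CT * (δ ^ d)⁻¹ := by
    refine (hT' δ hδ hδ1 ι e hcell.unit hsep).trans ?_
    gcongr
  obtain ⟨i₀⟩ := ‹Nonempty ι›
  have : Nonempty ι := ⟨i₀⟩
  have hSV : lam * 2 ^ J ≤ V.card := by
    refine (hS i₀).2.trans ?_
    have h1 : (S i₀).card ≤ V.card := by
      refine Finset.card_le_card_of_injOn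
        (fun t => (t, fl J (pt (uT k g c e) (dT k e) ((t : ℝ) / 2 ^ J) i₀))) ?_ ?_
      · intro t ht
        exact hV i₀ t ht
      · intro t _ t' _ htt
        exact congrArg Prod.fst htt
    exact_mod_cast h1
  have hlJ : 0 < lam * 2 ^ J := by positivity
  have hVpos : (0 : ℝ) < V.card := lt_of_lt_of_le hlJ hSV
  by_cases hgood : N₀ ≤ J
  · -- the main case
    obtain ⟨K, hKdef⟩ : ∃ K, K = J / M := ⟨_, rfl⟩
    have hKK : K₀ + 1 ≤ K := by
      rw [hKdef, Nat.le_div_iff_mul_le (by omega)]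
      rw [hN₀] at hgood
      rw [Nat.mul_comm]
      exact hgood
    have hMK : M * K ≤ J := by
      rw [hKdef]
      exact Nat.mul_div_le J M
    have hb : J - M * K < M := by
      have h1 := Nat.div_add_mod J M
      have h2 := Nat.mod_lt J (by omega : 0 < M)
      rw [← hKdef] at h1
      omega
    have hbR : ((J - M * K : ℕ) : ℝ) ≤ M := by exact_mod_cast hb.le
    have hJb : (J : ℝ) = M * K + ((J - M * K : ℕ) : ℝ) := by
      rw [Nat.cast_sub hMK]
      push_cast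
      ring
    -- scales
    have s1 : δ ≤ c₄ * ((2 : ℝ) ^ (M * K))⁻¹ := by
      have e1 : ((2 : ℝ) ^ J)⁻¹ ≤ ((2 : ℝ) ^ (M * K))⁻¹ :=
        inv_anti₀ (by positivity) (pow_le_pow_right₀ (by norm_num) hMK)
      have e2 : δ ≤ c₁⁻¹ * ((2 : ℝ) ^ J)⁻¹ := by
        rw [inv_mul_eq_div, le_div_iff₀ hc₁]
        linarith
      calc δ ≤ c₁⁻¹ * ((2 : ℝ) ^ J)⁻¹ := e2
        _ ≤ c₄ * ((2 : ℝ) ^ (M * K))⁻¹ := mul_le_mul hc₄a e1 (by positivity) (by linarith)
    have s2 : ((2 : ℝ) ^ (M * K))⁻¹ ≤ c₄ * δ := by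
      have e1 : ((2 : ℝ) ^ (M * K))⁻¹ ≤ 2 ^ M * ((2 : ℝ) ^ J)⁻¹ := by
        have e2 : (2 : ℝ) ^ J = 2 ^ (M * K) * 2 ^ (J - M * K) := by
          rw [← pow_add]
          congr 1
          omega
        have e3 : (2 : ℝ) ^ (J - M * K) ≤ 2 ^ M := pow_le_pow_right₀ (by norm_num) hb.le
        rw [e2, mul_inv]
        have e4 : (0 : ℝ) < 2 ^ (M * K) := by positivity
        have e5 : (0 : ℝ) < 2 ^ (J - M * K) := by positivity
        rw [← mul_assoc, mul_comm (2 ^ M : ℝ), mul_assoc]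
        refine le_mul_of_one_le_right (by positivity) ?_
        rw [← div_eq_mul_inv, le_div_iff₀ e5, one_mul]
        exact e3
      calc ((2 : ℝ) ^ (M * K))⁻¹ ≤ 2 ^ M * ((2 : ℝ) ^ J)⁻¹ := e1
        _ ≤ 2 ^ M * (c₂ * δ) := mul_le_mul_of_nonneg_left hJ2 (by positivity)
        _ = 2 ^ M * c₂ * δ := by ring
        _ ≤ c₄ * δ := mul_le_mul_of_nonneg_right hc₄b hδ.le
    -- logarithms
    have l0 : 0 < Real.log (1 / δ) := Real.log_pos (by
      rw [lt_div_iff₀ hδ]
      linarith)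
    have l1 : (J : ℝ) * Real.log 2 ≤ Real.log (1 / δ) + lc₁ := by
      have h1 := Real.log_le_log (by positivity) hJ1
      rw [Real.log_mul hc₁.ne' hδ.ne', Real.log_inv, Real.log_pow] at h1
      rw [one_div, Real.log_inv]
      have h2 : -Real.log c₁ ≤ lc₁ := by rw [hlc₁]; exact neg_le_abs _
      linarith
    have l2 : Real.log (1 / δ) ≤ lc₂ + J * Real.log 2 := by
      have h1 := Real.log_le_log (by positivity) hJ2
      rw [Real.log_mul hc₂.ne' hδ.ne', Real.log_inv, Real.log_pow] at h1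
      rw [one_div, Real.log_inv]
      have h2 : Real.log c₂ ≤ lc₂ := by rw [hlc₂]; exact le_abs_self _
      linarith
    have hK1 : (1 : ℝ) ≤ K := by exact_mod_cast (by omega : 1 ≤ K)
    have hM1 : (1 : ℝ) ≤ M := by exact_mod_cast hM
    have hMK1 : (1 : ℝ) ≤ M * K := by nlinarith
    have l3 : θ * Real.log (1 / δ) ≤ θ₀ * (M * K) := by
      have h1 : Real.log (1 / δ) ≤ (lc₂ + 2 * Real.log 2) * (M * K) := by
        have h2 : (M : ℝ) ≤ M * K := le_mul_of_one_le_right hM0.le hK1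
        have h3 : (J : ℝ) ≤ 2 * (M * K) := by linarith
        have h4 := mul_le_mul_of_nonneg_right h3 hlog2.le
        have h5 : lc₂ ≤ lc₂ * (M * K) := le_mul_of_one_le_right hlc20 hMK1
        nlinarith
      have h2 := mul_le_mul_of_nonneg_left h1 hθ.le
      have h3 : θ * ((lc₂ + 2 * Real.log 2) * (M * K)) = θ₀ * (M * K) := by
        rw [hθdef]
        field_simp
      linarith
    -- the family
    have hSpos : ∀ i, 0 < (S i).card := by
      intro i
      have : (0 : ℝ) < (S i).card := lt_of_lt_of_le hlJ (hS i).2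
      exact_mod_cast this
    have hB : ∀ i, Real.log (lam * 2 ^ J) ≤ Real.log (S i).card := fun i =>
      Real.log_le_log hlJ (hS i).2
    have hdT : ∀ i l, |dT k e i l| ≤ 1 := by
      intro i l
      have h3 := (hcell.mx i).slp (hcell.unit i) l
      have h4 : hm d ≤ 1 := by
        unfold hm
        rw [div_le_one (by positivity)]
        have : (0 : ℝ) ≤ d := by positivity
        linarith
      have h5 : 0 ≤ hm d := by unfold hm; positivity
      unfold dT
      rw [abs_mul, abs_of_nonneg h5]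
      exact mul_le_one₀ h4 (abs_nonneg _) h3
    have hSJ : ∀ i, S i ⊆ Finset.range (2 ^ J) := fun i => (hS i).1
    obtain ⟨F, hF⟩ : ∃ F, F = CE1.fam S hSpos (uT k g c e) (dT k e) hdT hMK hSJ := ⟨_, rfl⟩
    have hlJl : Real.log (lam * 2 ^ J) = Real.log lam + J * Real.log 2 := by
      rw [Real.log_mul hlam0.ne' (by positivity), Real.log_pow]
    have hlaml : -(θ * Real.log (1 / δ)) ≤ Real.log lam := by
      have h1 := Real.log_le_log (by positivity) hlam
      rw [Real.log_rpow hδ] at h1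
      rw [one_div, Real.log_inv]
      linarith
    have hTm : F.Tm (θ₀ * (M * K)) := by
      unfold Fam.Tm
      rw [hF]
      refine le_trans ?_ (CE1.time_line S hSpos (uT k g c e) (dT k e) hdT hMK hSJ hB)
      rw [hlJl]
      push_cast
      have : (J : ℝ) * Real.log 2 = M * K * Real.log 2 + ((J - M * K : ℕ) : ℝ) * Real.log 2 := by
        nth_rewrite 1 [hJb]
        ring
      linarith
    have hmain := hG K (by omega) F hTm
    have hl := CE1.pl_isLaw S hSpos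
    -- the chain
    have hspa := hSPA d (CE1.PS S) Unit (CE1.pl S) (fun ω => uT k g c e ω.1)
      (fun ω => dT k e ω.1) (fun _ => ()) hl (fun ω l => hdT ω.1 l) M K
    rw [Finset.sum_add_distrib] at hspa
    have hEq : ∑ r ∈ Finset.range M, CH (CE1.pl S) (Fl (fun ω : CE1.PS S => dT k e ω.1)
        ((r + 1) * K)) (bb (fun ω : CE1.PS S => uT k g c e ω.1)
          (fun ω : CE1.PS S => dT k e ω.1) (fun _ => ()) K r) =
        ∑ r ∈ Finset.range M, CH F.p (F.D ((r + 1) * K)) (fun ω => (F.L (r * K) ω, F.Z ω)) := by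
      rw [hF]
      rfl
    rw [hEq] at hspa
    -- the positions at the coarse scales
    have hcell' : Cell2 k g q (fun ω : CE1.PS S => c ω.1) (fun ω => e ω.1) :=
      ⟨fun ω => hcell.unit ω.1, fun ω => hcell.mx ω.1,
        hcell.sg.imp (fun h ω => h ω.1) (fun h ω => h ω.1), fun ω => hcell.ht ω.1,
        fun ω => hcell.ps ω.1⟩
    have hpos : ∑ r ∈ Finset.range M, CH (CE1.pl S)
        (Fl (fun ω : CE1.PS S => uT k g c e ω.1) (r * K))
        (fun ω => (Fl (fun ω : CE1.PS S => dT k e ω.1) (r * K) ω, ())) ≤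
        M * Real.log C₅ + ∑ r ∈ Finset.Ico 1 M, Real.log (A r) := by
      rw [Finset.range_eq_Ico, Finset.sum_eq_sum_Ico_succ_bot (by omega)]
      have h0 : CH (CE1.pl S) (Fl (fun ω : CE1.PS S => uT k g c e ω.1) (0 * K))
          (fun ω => (Fl (fun ω : CE1.PS S => dT k e ω.1) (0 * K) ω, ())) = 0 := by
        refine CH_eq_zero hl.nonneg ?_
        intro ω ω' _ _ _
        have h1 := hcell.ps ω.1
        have h2 := hcell.ps ω'.1
        rw [zero_mul]
        exact h1.trans h2.symm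
      rw [h0, zero_add]
      have h4 : ∑ r ∈ Finset.Ico (0 + 1) M, CH (CE1.pl S)
          (Fl (fun ω : CE1.PS S => uT k g c e ω.1) (r * K))
          (fun ω => (Fl (fun ω : CE1.PS S => dT k e ω.1) (r * K) ω, ())) ≤
          ∑ r ∈ Finset.Ico (0 + 1) M, (Real.log C₅ + Real.log (A r)) := by
        refine Finset.sum_le_sum fun r hr => ?_
        rw [Finset.mem_Ico] at hr
        obtain ⟨hr1, hr2⟩ := hr
        have hcr := hcov r hr1 hr2
        have hs0 : (0 : ℝ) ≤ (r : ℝ) / M := by positivity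
        have hs1 : (r : ℝ) / M ≤ 1 := by
          rw [div_le_one hM0]
          exact_mod_cast hr2.le
        have hA0 : (0 : ℝ) < A r := by exact_mod_cast hcr.1
        have e1 : δ ^ ((r : ℝ) / M) ≤ c₄ * ((2 : ℝ) ^ (r * K))⁻¹ := by
          rw [CE1.pow_scale (K := K) (r := r) hM]
          exact CE1.rpow_cmp hδ (by positivity) hc₄1 s1 hs0 hs1
        have e2 : ((2 : ℝ) ^ (r * K))⁻¹ ≤ c₄ * δ ^ ((r : ℝ) / M) := by
          rw [CE1.pow_scale (K := K) (r := r) hM]
          exact CE1.rpow_cmp (by positivity) hδ hc₄1 s2 hs0 hs1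
        have h8 : δ ≤ δ ^ ((r : ℝ) / M) := by
          calc δ = δ ^ (1 : ℝ) := (Real.rpow_one δ).symm
            _ ≤ _ := Real.rpow_le_rpow_of_exponent_ge hδ hδ1.le hs1
        have hcov' : CovAt L δ (δ ^ ((r : ℝ) / M)) (A r) (fun ω : CE1.PS S => c ω.1)
            (fun ω => e ω.1) := by
          intro x v hv
          obtain ⟨F', hF1, hF2, hF3⟩ := hcr.2 x v hv
          exact ⟨F', hF1, hF2, fun ω => hF3 ω.1⟩
        have h9 := h5 δ (δ ^ ((r : ℝ) / M)) (r * K) (A r) hδ hδ1 h8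
          (Real.rpow_le_one hδ.le hδ1.le hs0) e1 e2 (CE1.PS S) (fun ω => c ω.1)
          (fun ω => e ω.1) k g q hcell' hcr.1 hcov' (CE1.pl S) (fun _ => 0) hl
        have h10 : (sft (uT k g (fun ω : CE1.PS S => c ω.1) (fun ω => e ω.1)) (fun _ => 0)) =
            fun ω : CE1.PS S => uT k g c e ω.1 := by
          funext ω l
          unfold sft
          rw [add_zero]
          rfl
        rw [h10] at h9
        have h11 : (dT k (fun ω : CE1.PS S => e ω.1)) = fun ω : CE1.PS S => dT k e ω.1 := rfl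
        rw [h11] at h9
        refine (CH_mono_cond hl.nonneg (fun ω ω' _ _ h => (Prod.ext_iff.mp h).1)).trans
          (h9.trans (le_of_eq ?_))
        rw [Real.log_mul hC50.ne' hA0.ne']
      refine h4.trans ?_
      rw [Finset.sum_add_distrib, Finset.sum_const, Nat.card_Ico, nsmul_eq_mul, zero_add]
      have h6 : 0 ≤ Real.log C₅ := Real.log_nonneg hC₅
      have h7 : ((M - 1 : ℕ) : ℝ) ≤ M := by exact_mod_cast Nat.sub_le M 1
      have h8 := mul_le_mul_of_nonneg_right h7 h6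
      linarith
    -- the directions
    have hdir : Real.log (Fintype.card ι) ≤
        CH (CE1.pl S) (Fl (fun ω : CE1.PS S => dT k e ω.1) (M * K)) (fun _ => ()) + C₇ := by
      have h1 := h7 δ (M * K) hδ hδ1 s2 ι c e k g q hcell hsep
      have h2 : H (unif ι) (Fl (dT k e) (M * K)) =
          H (CE1.pl S) (Fl (fun ω : CE1.PS S => dT k e ω.1) (M * K)) :=
        (CE1.H_fst S hSpos (Fl (dT k e) (M * K))).symm
      have h3 : H (CE1.pl S) (Fl (fun ω : CE1.PS S => dT k e ω.1) (M * K)) ≤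
          CH (CE1.pl S) (Fl (fun ω : CE1.PS S => dT k e ω.1) (M * K)) (fun _ => ()) := by
        unfold CH
        rw [H_const hl.sum_one, sub_zero]
        exact H_mono hl.nonneg (fun ω ω' _ _ h => (Prod.ext_iff.mp h).1)
      linarith
    -- the position at the time
    have hx1 : CH F.p (F.X (M * K)) F.W ≤ Real.log (Fintype.card ι) := by
      rw [hF]
      exact CE1.pos_card S hSpos (uT k g c e) (dT k e) hdT hMK hSJ
    have hx2 : CH F.p (F.X (M * K)) F.W ≤ Real.log V.card + cc d -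
        (Real.log (lam * 2 ^ J) - ((J - M * K : ℕ) : ℝ) * Real.log 2) := by
      rw [hF]
      exact CE1.pos_V S hSpos (uT k g c e) (dT k e) hdT hMK hSJ hB V hV
    set h := CH F.p (F.X (M * K)) F.W with hh
    have l4 : Real.log (Fintype.card ι) ≤ Real.log CT + d * Real.log (1 / δ) := by
      have := Real.log_le_log hn0 hnT
      rw [Real.log_mul hCT0.ne' (by positivity), Real.log_inv, Real.log_pow] at this
      rw [one_div, Real.log_inv]
      linarith
    have l5 : α * h ≤ α * Real.log CT + ε / 2 * Real.log (1 / δ) := by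
      have e1 := mul_le_mul_of_nonneg_left (hx1.trans l4) hα0.le
      have e2 : α * d = ε / 2 := by
        rw [hα]
        field_simp
      calc α * h ≤ _ := e1
        _ = α * Real.log CT + (α * d) * Real.log (1 / δ) := by ring
        _ = _ := by rw [e2]
    have l6 : R * (M * K) ≤ ε / 2 * Real.log (1 / δ) + R / Real.log 2 * lc₁ := by
      have e1 : (M : ℝ) * K ≤ J := by exact_mod_cast hMK
      have e2 : R * (M * K) ≤ R / Real.log 2 * (J * Real.log 2) := by
        have : R / Real.log 2 * (J * Real.log 2) = R * J := by field_simp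
        rw [this]
        exact mul_le_mul_of_nonneg_left e1 hR0.le
      have e3 := mul_le_mul_of_nonneg_left l1 (show 0 ≤ R / Real.log 2 by positivity)
      have e4 : R / Real.log 2 = ε / 2 := by
        rw [hR]
        field_simp
      rw [e4] at e2 e3 ⊢
      linarith
    have l7 : ((J - M * K : ℕ) : ℝ) * Real.log 2 ≤ M * Real.log 2 :=
      mul_le_mul_of_nonneg_right hbR hlog2.le
    have htotal : Real.log (Fintype.card ι) + Real.log (lam * 2 ^ J) ≤
        G + ε * Real.log (1 / δ) + ∑ r ∈ Finset.Ico 1 M, Real.log (A r) + Real.log V.card := by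
      rw [hGdef]
      have e1 : (1 + α) * h = h + α * h := by ring
      rw [e1] at hmain
      linarith
    -- exponentials
    have hexp : (Fintype.card ι : ℝ) * (lam * 2 ^ J) ≤
        Real.exp G * δ ^ (-ε) * (∏ r ∈ Finset.Ico 1 M, (A r : ℝ)) * V.card := by
      have e1 := Real.exp_le_exp.mpr htotal
      rw [Real.exp_add, Real.exp_log hn0, Real.exp_log hlJ, Real.exp_add, Real.exp_add,
        Real.exp_add, Real.exp_log hVpos] at e1
      have e2 : Real.exp (ε * Real.log (1 / δ)) = δ ^ (-ε) := by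
        rw [Real.rpow_def_of_pos hδ, one_div, Real.log_inv]
        congr 1
        ring
      have e3 : Real.exp (∑ r ∈ Finset.Ico 1 M, Real.log (A r)) =
          ∏ r ∈ Finset.Ico 1 M, (A r : ℝ) := by
        rw [Real.exp_sum]
        refine Finset.prod_congr rfl fun r hr => ?_
        rw [Real.exp_log]
        exact_mod_cast hA1 r hr
      rw [e2, e3] at e1
      exact e1
    refine hexp.trans ?_
    refine mul_le_mul_of_nonneg_right ?_ hV0
    refine mul_le_mul_of_nonneg_right ?_ (by linarith)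
    refine mul_le_mul_of_nonneg_right ?_ (by linarith)
    rw [hC₀]
    exact (le_max_left _ _).trans (le_max_left _ _)
  · -- large δ
    push Not at hgood
    have h1 : ((2 : ℝ) ^ N₀)⁻¹ ≤ ((2 : ℝ) ^ J)⁻¹ :=
      inv_anti₀ (by positivity) (pow_le_pow_right₀ (by norm_num) hgood.le)
    have h2 : δ⁻¹ ≤ c₂ * 2 ^ N₀ := by
      have e1 : ((2 : ℝ) ^ N₀)⁻¹ ≤ c₂ * δ := h1.trans hJ2
      rw [inv_le_iff_one_le_mul₀ hδ]
      have e2 := mul_le_mul_of_nonneg_left e1 (show (0 : ℝ) ≤ 2 ^ N₀ by positivity)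
      rw [mul_inv_cancel₀ (by positivity)] at e2
      linarith
    have h3 : (δ ^ d)⁻¹ ≤ (c₂ * 2 ^ N₀) ^ d := by
      rw [← inv_pow]
      exact pow_le_pow_left₀ (by positivity) h2 d
    have h4 : (Fintype.card ι : ℝ) ≤ max C₀ 1 := by
      refine hnT.trans ?_
      refine (mul_le_mul_of_nonneg_left h3 hCT0.le).trans ?_
      rw [hC₀]
      exact (le_max_right _ _).trans (le_max_left _ _)
    calc (Fintype.card ι : ℝ) * (lam * 2 ^ J) ≤ max C₀ 1 * V.card :=
          mul_le_mul h4 hSV hlJ.le hCpos.le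
      _ = max C₀ 1 * 1 * 1 * V.card := by ring
      _ ≤ max C₀ 1 * δ ^ (-ε) * (∏ r ∈ Finset.Ico 1 M, (A r : ℝ)) * V.card := by
          refine mul_le_mul_of_nonneg_right ?_ hV0
          exact mul_le_mul (mul_le_mul_of_nonneg_left hδε hCpos.le) hPr (by norm_num)
            (by positivity)

end Pool.STE
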