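import Pool.Agent.H80.STK2.EP
import Pool.Agent.H90.STE.Stmts2

/-!
# Families without stickiness, times dependent on the line

The sticky theorem with random times implies the theorem on local direction entropies for all
families with random times. The functional of `H80/STK2/EP` is completed by a large multiple of the
entropy of the time given the line; so the moves keep the times uniform up to a small deficit.
-/

set_option autoImplicit false

namespace Pool.STE

open Finset Real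
open Pool.Agent.H49.Ent Pool.Agent.H32.Dense Pool.STK Pool.KA

namespace EPT

section Abstract

variable {Ω : Type} {S T V : Type*} [Fintype Ω]

lemma law_pair_sum (p : Ω → ℝ) (hp : ∀ ω, 0 ≤ p ω) (X : Ω → S) (W : Ω → T) (w : T)
    (F : Finset S) : ∑ x ∈ F, law p (fun ω => (X ω, W ω)) (x, w) ≤ law p W w := by
  classical
  unfold law
  rw [Finset.sum_comm]
  refine Finset.sum_le_sum fun ω _ => ?_
  by_cases h : W ω = w
  · rw [if_pos h]
    refine le_of_eq_of_le (b := ∑ x ∈ F, if X ω = x then p ω else 0)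
      (Finset.sum_congr rfl fun x _ => ?_) ?_
    · by_cases hx : X ω = x
      · rw [if_pos hx, if_pos (Prod.ext hx h)]
      · rw [if_neg hx, if_neg (fun e => hx (Prod.ext_iff.mp e).1)]
    · rw [Finset.sum_ite_eq]
      split_ifs
      · exact le_rfl
      · exact hp ω
  · rw [if_neg h]
    refine (Finset.sum_eq_zero fun x _ => ?_).le
    rw [if_neg (fun e => h (Prod.ext_iff.mp e).2)]

/-- Conditional entropy is concave in the law. -/
lemma CH_conc {p q₁ q₂ : Ω → ℝ} (h₁ : IsLaw q₁) (h₂ : IsLaw q₂) {a b : ℝ}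
    (ha : 0 < a) (hb : 0 < b) (hq : ∀ ω, a * q₁ ω + b * q₂ ω = p ω)
    (X : Ω → S) (W : Ω → T) :
    a * CH q₁ X W + b * CH q₂ X W ≤ CH p X W := by
  classical
  have hp : ∀ ω, 0 ≤ p ω := fun ω => by
    rw [← hq ω]
    exact add_nonneg (mul_nonneg ha.le (h₁.nonneg ω)) (mul_nonneg hb.le (h₂.nonneg ω))
  have key : ∀ q : Ω → ℝ, IsLaw q → (∀ ω, 0 < q ω → 0 < p ω) →
      CH q X W ≤ Ex q (fun ω => -Real.log (law p (fun ω => (X ω, W ω)) (X ω, W ω) /
        law p W (W ω))) := by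
    intro q hql hqp
    refine CH_le_cross hql.nonneg hql.sum_one X W
      (fun w x => law p (fun ω => (X ω, W ω)) (x, w) / law p W w) ?_ ?_ ?_
    · intro ω hω
      exact div_pos (law_pos hp _ (hqp ω hω)) (law_pos hp _ (hqp ω hω))
    · intro w x
      exact div_nonneg (law_nonneg hp _ _) (law_nonneg hp _ _)
    · intro ω hω F
      rw [← Finset.sum_div]
      exact (div_le_one (law_pos hp W (hqp ω hω))).mpr (law_pair_sum p hp X W (W ω) F)
  have k1 := key q₁ h₁ fun ω hω => by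
    rw [← hq ω]
    exact add_pos_of_pos_of_nonneg (mul_pos ha hω) (mul_nonneg hb.le (h₂.nonneg ω))
  have k2 := key q₂ h₂ fun ω hω => by
    rw [← hq ω]
    exact add_pos_of_nonneg_of_pos (mul_nonneg ha.le (h₁.nonneg ω)) (mul_pos hb hω)
  rw [CH_eq_neg_sum hp]
  have e : Ex p (fun ω => -Real.log (law p (fun ω => (X ω, W ω)) (X ω, W ω) / law p W (W ω))) =
      a * Ex q₁ (fun ω => -Real.log (law p (fun ω => (X ω, W ω)) (X ω, W ω) / law p W (W ω))) +
      b * Ex q₂ (fun ω => -Real.log (law p (fun ω => (X ω, W ω)) (X ω, W ω) / law p W (W ω))) := by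
    unfold Ex
    rw [Finset.mul_sum, Finset.mul_sum, ← Finset.sum_add_distrib]
    refine Finset.sum_congr rfl fun ω _ => ?_
    rw [← hq ω]
    ring
  rw [e]
  have := mul_le_mul_of_nonneg_left k1 ha.le
  have := mul_le_mul_of_nonneg_left k2 hb.le
  linarith

end Abstract

section Lines

variable {Ω ζ χ τ : Type} [Fintype Ω] {m : ℕ}

/-- The functional: `Y` is the position, `W` the time with the side information, `T` the time and
`l` the line with the side information. -/
noncomputable def Phi {θ S : Type} (a c : ℝ) (p : Ω → ℝ) (u d : Ω → Fin m → ℝ) (Z : Ω → ζ)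
    (Y : Ω → χ) (W : Ω → τ) (T : Ω → θ) (l : Ω → S) (K M : ℕ) : ℝ :=
  ∑ r ∈ Finset.range M, CH p (Fl d ((r + 1) * K)) (bb u d Z K r) - a * CH p Y W + c * CH p T l

/-- One move. -/
lemma move {θ S : Type} {a c : ℝ} (ha : 0 ≤ a) {p : Ω → ℝ} (hp : IsLaw p)
    (u d : Ω → Fin m → ℝ) (Z : Ω → ζ) (Y : Ω → χ) (W : Ω → τ) (T : Ω → θ) (l : Ω → S)
    (K M r : ℕ)
    (hl : ∀ ω ω', l ω = l ω' → bb u d Z K (r + 1) ω = bb u d Z K (r + 1) ω')
    {ω₁ ω₂ : Ω} (h₁ : 0 < p ω₁) (h₂ : 0 < p ω₂)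
    (hA : EP.AA u d Z K r ω₁ = EP.AA u d Z K r ω₂)
    (hB : bb u d Z K (r + 1) ω₁ ≠ bb u d Z K (r + 1) ω₂) :
    ∃ p' : Ω → ℝ, IsLaw p' ∧ (∀ ω, 0 < p' ω → 0 < p ω) ∧ (∃ ω, 0 < p ω ∧ ¬ 0 < p' ω) ∧
      Phi a c p u d Z Y W T l K M ≤ Phi a c p' u d Z Y W T l K M := by
  set B := bb u d Z K (r + 1) with hBdef
  -- the situation is symmetric
  have main : ∀ ω₁ ω₂ : Ω, 0 < p ω₁ → 0 < p ω₂ → EP.AA u d Z K r ω₁ = EP.AA u d Z K r ω₂ →
      B ω₁ ≠ B ω₂ →
      IsLaw (fun ω => EP.wt p B (B ω₁) (B ω₂) ω * p ω) ∧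
      (∀ ω, 0 < EP.wt p B (B ω₁) (B ω₂) ω * p ω → 0 < p ω) ∧
      ¬ 0 < EP.wt p B (B ω₁) (B ω₂) ω₂ * p ω₂ ∧
      (∀ x, law (fun ω => EP.wt p B (B ω₁) (B ω₂) ω * p ω) (EP.AA u d Z K r) x =
        law p (EP.AA u d Z K r) x) := by
    intro ω₁ ω₂ h₁ h₂ hA hB
    have hl : 0 < law p B (B ω₁) := law_pos hp.nonneg B h₁
    refine ⟨⟨fun ω => mul_nonneg (EP.wt_nonneg hp.nonneg B _ _ ω) (hp.nonneg ω), ?_⟩, ?_, ?_, ?_⟩
    · have h := EP.law_wt (A := fun _ : Ω => ()) (c := ()) hl hB (fun _ _ => rfl) ()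
      unfold law at h
      simp only [if_true] at h
      rw [h, hp.sum_one]
    · intro ω h
      rcases (hp.nonneg ω).eq_or_lt with h0 | h0
      · rw [← h0, mul_zero] at h
        exact absurd h (lt_irrefl _)
      · exact h0
    · unfold EP.wt
      rw [if_neg (Ne.symm hB), if_pos rfl, zero_mul]
      exact lt_irrefl _
    · refine EP.law_wt (c := EP.AA u d Z K r ω₁) hl hB ?_
      rintro ω (h | h)
      · exact EP.AA_of_bb u d Z K r h
      · exact (EP.AA_of_bb u d Z K r h).trans hA.symm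
  obtain ⟨L1, S1, N1, A1⟩ := main ω₁ ω₂ h₁ h₂ hA hB
  obtain ⟨L2, S2, N2, A2⟩ := main ω₂ ω₁ h₂ h₁ hA.symm (Ne.symm hB)
  set s₁ := EP.wt p B (B ω₁) (B ω₂) with hs1
  set s₂ := EP.wt p B (B ω₂) (B ω₁) with hs2
  set x := law p B (B ω₁) with hx
  set y := law p B (B ω₂) with hy
  have hx0 : 0 < x := law_pos hp.nonneg B h₁
  have hy0 : 0 < y := law_pos hp.nonneg B h₂
  have hxy : 0 < x + y := add_pos hx0 hy0
  have w1 : 0 < x / (x + y) := div_pos hx0 hxy
  have w2 : 0 < y / (x + y) := div_pos hy0 hxy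
  have w12 : x / (x + y) + y / (x + y) = 1 := by field_simp
  have hav : ∀ ω, x / (x + y) * s₁ ω + y / (x + y) * s₂ ω = 1 := fun ω =>
    EP.wt_avg hx0 hy0 hB ω
  have n1 : ∀ ω, 0 ≤ s₁ ω := EP.wt_nonneg hp.nonneg B _ _
  have n2 : ∀ ω, 0 ≤ s₂ ω := EP.wt_nonneg hp.nonneg B _ _
  have hmix : ∀ ω, x / (x + y) * (s₁ ω * p ω) + y / (x + y) * (s₂ ω * p ω) = p ω := by
    intro ω
    have := hav ω
    calc _ = (x / (x + y) * s₁ ω + y / (x + y) * s₂ ω) * p ω := by ring
      _ = p ω := by rw [this, one_mul]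
  -- linearity of the local direction entropies
  have lin : ∀ r' : ℕ, x / (x + y) * CH (fun ω => s₁ ω * p ω) (Fl d ((r' + 1) * K))
      (bb u d Z K r') + y / (x + y) * CH (fun ω => s₂ ω * p ω) (Fl d ((r' + 1) * K))
      (bb u d Z K r') = CH p (Fl d ((r' + 1) * K)) (bb u d Z K r') := by
    intro r'
    by_cases hr : r' ≤ r
    · have f1 : ∀ ω ω', EP.AA u d Z K r ω = EP.AA u d Z K r ω' →
          bb u d Z K r' ω = bb u d Z K r' ω' := by
        intro ω ω' e
        refine EP.bb_nested u d Z K hr ?_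
        unfold EP.AA at e
        unfold bb
        simp only [Prod.mk.injEq] at e ⊢
        exact ⟨e.1.1, e.2⟩
      have f2 : ∀ ω ω', EP.AA u d Z K r ω = EP.AA u d Z K r ω' →
          (Fl d ((r' + 1) * K) ω, bb u d Z K r' ω) = (Fl d ((r' + 1) * K) ω', bb u d Z K r' ω') := by
        intro ω ω' e
        refine Prod.ext ?_ (f1 ω ω' e)
        unfold EP.AA at e
        simp only [Prod.mk.injEq] at e
        unfold Fl at e ⊢
        exact RED.fl_nested (Nat.mul_le_mul_right K (Nat.succ_le_succ hr)) e.1.2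
      have e1 : CH (fun ω => s₁ ω * p ω) (Fl d ((r' + 1) * K)) (bb u d Z K r') =
          CH p (Fl d ((r' + 1) * K)) (bb u d Z K r') := by
        unfold CH
        rw [EP.H_of_law (EP.law_of_law A1 f1), EP.H_of_law (EP.law_of_law A1 f2)]
      have e2 : CH (fun ω => s₂ ω * p ω) (Fl d ((r' + 1) * K)) (bb u d Z K r') =
          CH p (Fl d ((r' + 1) * K)) (bb u d Z K r') := by
        unfold CH
        rw [EP.H_of_law (EP.law_of_law A2 f1), EP.H_of_law (EP.law_of_law A2 f2)]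
      rw [e1, e2, ← add_mul, w12, one_mul]
    · push Not at hr
      exact EP.CH_linear hp.nonneg n1 n2 _
        (fun ω ω' e => EP.wt_congr (EP.bb_nested u d Z K hr e))
        (fun ω ω' e => EP.wt_congr (EP.bb_nested u d Z K hr e)) hav
  -- linearity of the entropy of the time
  have linT : x / (x + y) * CH (fun ω => s₁ ω * p ω) T l +
      y / (x + y) * CH (fun ω => s₂ ω * p ω) T l = CH p T l :=
    EP.CH_linear hp.nonneg n1 n2 _ (fun ω ω' e => EP.wt_congr (hl _ _ e))
      (fun ω ω' e => EP.wt_congr (hl _ _ e)) hav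
  -- concavity of the entropy of the position
  have conc := CH_conc L1 L2 w1 w2 hmix Y W
  have hPhi : Phi a c p u d Z Y W T l K M ≤
      x / (x + y) * Phi a c (fun ω => s₁ ω * p ω) u d Z Y W T l K M +
      y / (x + y) * Phi a c (fun ω => s₂ ω * p ω) u d Z Y W T l K M := by
    unfold Phi
    have e : ∑ r' ∈ Finset.range M, CH p (Fl d ((r' + 1) * K)) (bb u d Z K r') =
        x / (x + y) * ∑ r' ∈ Finset.range M,
          CH (fun ω => s₁ ω * p ω) (Fl d ((r' + 1) * K)) (bb u d Z K r') +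
        y / (x + y) * ∑ r' ∈ Finset.range M,
          CH (fun ω => s₂ ω * p ω) (Fl d ((r' + 1) * K)) (bb u d Z K r') := by
      rw [Finset.mul_sum, Finset.mul_sum, ← Finset.sum_add_distrib]
      exact Finset.sum_congr rfl fun r' _ => (lin r').symm
    rw [e, ← linT]
    have := mul_le_mul_of_nonneg_left conc ha
    nlinarith
  by_cases hc : Phi a c p u d Z Y W T l K M ≤ Phi a c (fun ω => s₁ ω * p ω) u d Z Y W T l K M
  · exact ⟨_, L1, S1, ⟨ω₂, h₂, N1⟩, hc⟩
  · refine ⟨_, L2, S2, ⟨ω₁, h₁, N2⟩, ?_⟩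
    by_contra hc2
    push Not at hc hc2
    have g1 := mul_lt_mul_of_pos_left hc w1
    have g2 := mul_lt_mul_of_pos_left hc2 w2
    have g3 : x / (x + y) * Phi a c p u d Z Y W T l K M +
        y / (x + y) * Phi a c p u d Z Y W T l K M = Phi a c p u d Z Y W T l K M := by
      rw [← add_mul, w12, one_mul]
    linarith

/-- A law for which the coarse line and the finer direction determine the finer line. -/
lemma derand {θ S : Type} {a c : ℝ} (ha : 0 ≤ a)
    (u d : Ω → Fin m → ℝ) (Z : Ω → ζ) (Y : Ω → χ) (W : Ω → τ) (T : Ω → θ) (l : Ω → S)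
    (K M : ℕ)
    (hl : ∀ r, ∀ ω ω', l ω = l ω' → bb u d Z K r ω = bb u d Z K r ω') :
    ∀ (n : ℕ) (p : Ω → ℝ), IsLaw p →
    (open Classical in (univ.filter (fun ω => 0 < p ω)).card) ≤ n →
    ∃ p' : Ω → ℝ, IsLaw p' ∧ Phi a c p u d Z Y W T l K M ≤ Phi a c p' u d Z Y W T l K M ∧
      ∀ r < M, Det p' (EP.AA u d Z K r) (bb u d Z K (r + 1)) := by
  classical
  intro n
  induction n with
  | zero =>
    intro p hp hn
    refine ⟨p, hp, le_rfl, fun r _ ω ω' h => ?_⟩
    have h1 : ω ∈ univ.filter (fun ω => 0 < p ω) := by simp [h]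
    rw [Finset.card_eq_zero.mp (Nat.le_zero.mp hn)] at h1
    simp at h1
  | succ n ih =>
    intro p hp hn
    by_cases hgood : ∀ r < M, Det p (EP.AA u d Z K r) (bb u d Z K (r + 1))
    · exact ⟨p, hp, le_rfl, hgood⟩
    · unfold Det at hgood
      push Not at hgood
      obtain ⟨r, _, ω₁, ω₂, h₁, h₂, hA, hB⟩ := hgood
      obtain ⟨q, hq, hsub, ⟨ω, hω1, hω2⟩, hPhi⟩ :=
        move (c := c) ha hp u d Z Y W T l K M r (hl (r + 1)) h₁ h₂ hA hB
      have hlt : (univ.filter (fun ω => 0 < q ω)).card < (univ.filter (fun ω => 0 < p ω)).card := by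
        refine Finset.card_lt_card (Finset.ssubset_iff_subset_ne.mpr ⟨?_, ?_⟩)
        · intro x hx
          simp only [Finset.mem_filter, Finset.mem_univ, true_and] at hx ⊢
          exact hsub x hx
        · intro e
          have : ω ∈ univ.filter (fun ω => 0 < q ω) := by
            rw [e]
            simp [hω1]
          simp only [Finset.mem_filter, Finset.mem_univ, true_and] at this
          exact hω2 this
      obtain ⟨p', hp', h1, h2⟩ := ih q hq (by omega)
      exact ⟨p', hp', hPhi.trans h1, h2⟩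

end Lines

/-- The family with another law and with the coarsest line as additional side information. -/
noncomputable def fam {m J : ℕ} (F : Fam m J) (p' : F.Ω → ℝ) (hp' : IsLaw p') (K : ℕ) : Fam m J where
  Ω := F.Ω
  ζ := ((Fin m → ℤ) × (Fin m → ℤ)) × F.ζ
  fin := F.fin
  p := p'
  u := F.u
  d := F.d
  T := F.T
  Z := bb F.u F.d F.Z K 0
  isLaw := hp'
  dir := F.dir
  tim := F.tim

/-- The entropy of the time. -/
lemma time_le {m J : ℕ} (F : Fam m J) {p' : F.Ω → ℝ} (hp' : IsLaw p') {S : Type} (l : F.Ω → S) :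
    CH p' F.T l ≤ J * Real.log 2 := by
  have h := CH_le_card hp'.nonneg hp'.sum_one F.T l (fun _ => Finset.range (2 ^ J))
    (fun ω _ => Finset.mem_range.mpr (F.tim ω))
  rw [Ex_const hp'.sum_one, Finset.card_range] at h
  have e : Real.log ((2 ^ J : ℕ) : ℝ) = J * Real.log 2 := by
    push_cast
    rw [Real.log_pow]
  rwa [e] at h

end EPT

/-- **The theorem on local direction entropies with times dependent on the line.** -/
theorem ept (hK : ∀ m, KST m) : EPTStmt := by
  classical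
  intro m a R ha hR
  obtain ⟨ε, hε, θ', hθ', J₀, hG⟩ := hK m a (R / 4) ha (by linarith)
  obtain ⟨M₀, hM₀⟩ := exists_nat_ge (2 * (m * Real.log 2) / ε)
  obtain ⟨K₁, hK₁⟩ := exists_nat_ge (2 * cc m / ε)
  have hcc : 0 ≤ cc m := by unfold cc; positivity
  have hl2 : 0 ≤ Real.log 2 := Real.log_nonneg (by norm_num)
  set C := m * Real.log 2 + cc m + 1 with hC
  have hC0 : 0 < C := by
    have : (0 : ℝ) ≤ m * Real.log 2 := by positivity
    linarith
  set c := 2 * C / θ' with hc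
  have hc0 : 0 < c := by positivity
  set θ := min (θ' / 2) (R / (2 * c)) with hθ
  have hθ0 : 0 < θ := lt_min (by linarith) (by positivity)
  obtain ⟨M, hM⟩ : ∃ M, M = M₀ + 1 := ⟨_, rfl⟩
  refine ⟨M, by omega, θ, hθ0, J₀ + K₁ + 1, ?_⟩
  intro K hK F hT
  have hK1 : 1 ≤ K := by omega
  have ha0 : 0 ≤ a := by linarith
  obtain ⟨p', hp', hPhi, hdet⟩ := EPT.derand (c := c) ha0 F.u F.d F.Z (F.X (M * K)) F.W F.T
    (fun ω => (F.l ω, F.Z ω)) K M (by
      intro r ω ω' e
      simp only [Prod.mk.injEq] at e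
      have e1 := e.1
      unfold Fam.l at e1
      simp only [Prod.mk.injEq] at e1
      unfold bb Ln Fl
      rw [e1.1, e1.2, e.2]) _ F.p F.isLaw le_rfl
  have hMK : J₀ ≤ M * K := by
    have : 1 * K ≤ M * K := Nat.mul_le_mul_right K (by omega)
    omega
  have hcast : ((M * K : ℕ) : ℝ) = M * K := by push_cast; ring
  have hMr : 2 * (m * Real.log 2) ≤ ε * M := by
    rw [div_le_iff₀ hε] at hM₀
    have : (M : ℝ) = M₀ + 1 := by rw [hM]; push_cast; ring
    rw [this]
    nlinarith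
  have hKr : 2 * cc m ≤ ε * K := by
    rw [div_le_iff₀ hε] at hK₁
    have : (K₁ : ℝ) ≤ K := by exact_mod_cast (by omega : K₁ ≤ K)
    nlinarith
  have hK0 : (0 : ℝ) ≤ K := Nat.cast_nonneg K
  have hK1' : (1 : ℝ) ≤ K := by exact_mod_cast hK1
  have hM1 : (1 : ℝ) ≤ M := by exact_mod_cast (by omega : 1 ≤ M)
  have hJ1 : (1 : ℝ) ≤ M * K := by nlinarith
  have hst : Sticky p' F.u F.d (bb F.u F.d F.Z K 0) ε (M * K) := by
    refine EP.sticky_of_det hp' hK1 hdet ?_
    rw [hcast]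
    have h1 := mul_le_mul_of_nonneg_right hMr hK0
    have h2 : ε * K ≤ ε * M * K := by
      have := mul_le_mul_of_nonneg_left hM1 (mul_nonneg hε.le hK0)
      nlinarith
    nlinarith
  have hsum := EP.sum_le_dir (u := F.u) (d := F.d) (Z := F.Z) (K := K) hp' M
  -- upper bound of the entropy of the direction
  have hdir : CH p' (Fl F.d (M * K)) (bb F.u F.d F.Z K 0) ≤ C * (M * K) := by
    have h1 := rfn_thm m F.Ω _ p' F.d (bb F.u F.d F.Z K 0) hp' (M * K) 0
    rw [zero_add] at h1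
    have h2 : CH p' (Fl F.d 0) (bb F.u F.d F.Z K 0) = 0 := by
      refine CH_eq_zero hp'.nonneg ?_
      intro ω ω' _ _ e
      unfold bb Ln at e
      simp only [Prod.mk.injEq, zero_mul] at e
      exact e.1.2
    rw [h2, hcast] at h1
    have h3 : cc m ≤ cc m * (M * K) := le_mul_of_one_le_right hcc hJ1
    have h4 : (0 : ℝ) ≤ M * K := by linarith
    rw [hC]
    nlinarith
  have hXX : 0 ≤ CH p' (F.X (M * K)) F.W := CH_nonneg hp'.nonneg _ _
  have hTlow : (M * K : ℝ) * Real.log 2 - θ * (M * K) ≤ CH F.p F.T (fun ω => (F.l ω, F.Z ω)) := by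
    have := hT
    unfold Fam.Tm at this
    rw [hcast] at this
    exact this
  have hTup := EPT.time_le F hp' (fun ω => (F.l ω, F.Z ω))
  rw [hcast] at hTup
  unfold EPT.Phi at hPhi
  have hθ1 : θ ≤ θ' / 2 := min_le_left _ _
  have hθ2 : θ ≤ R / (2 * c) := min_le_right _ _
  have hJ0 : (0 : ℝ) ≤ M * K := by linarith
  -- names
  set SS := ∑ r ∈ Finset.range M, CH F.p (Fl F.d ((r + 1) * K)) (bb F.u F.d F.Z K r) with hSS
  set SS' := ∑ r ∈ Finset.range M, CH p' (Fl F.d ((r + 1) * K)) (bb F.u F.d F.Z K r) with hSS'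
  set XX := CH F.p (F.X (M * K)) F.W with hXXd
  set TT := CH F.p F.T (fun ω => (F.l ω, F.Z ω)) with hTT
  set TT' := CH p' F.T (fun ω => (F.l ω, F.Z ω)) with hTT'
  have hgoal : ∑ r ∈ Finset.range M, CH F.p (F.D ((r + 1) * K))
      (fun ω => (F.L (r * K) ω, F.Z ω)) = SS := rfl
  rw [hgoal]
  by_contra hcon
  push Not at hcon
  -- the deficit of the time
  have hdef : (M * K : ℝ) * Real.log 2 - θ' * (M * K) ≤ TT' := by
    have h1 : c * TT + R * (M * K) ≤ C * (M * K) + c * TT' := by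
      have := mul_nonneg ha0 hXX
      linarith
    have h2 : c * ((M * K : ℝ) * Real.log 2 - θ * (M * K)) ≤ c * TT :=
      mul_le_mul_of_nonneg_left hTlow hc0.le
    have h3 : c * ((M * K : ℝ) * Real.log 2 - θ * (M * K)) ≤ C * (M * K) + c * TT' := by
      have : 0 ≤ R * (M * K) := mul_nonneg hR.le hJ0
      linarith
    have h4 : C = c * (θ' / 2) := by rw [hc]; field_simp
    have h5 : c * ((M * K : ℝ) * Real.log 2 - θ * (M * K) - θ' / 2 * (M * K)) ≤ c * TT' := by
      have e : C * (M * K : ℝ) = c * (θ' / 2 * (M * K)) := by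
        rw [h4]; ring
      rw [e] at h3
      linarith
    have h6 := le_of_mul_le_mul_left h5 hc0
    have h7 : θ * (M * K : ℝ) ≤ θ' / 2 * (M * K) := mul_le_mul_of_nonneg_right hθ1 hJ0
    linarith
  -- the new family
  set F' := EPT.fam F p' hp' K with hF'
  have hTm : F'.Tm (θ' * ((M * K : ℕ) : ℝ)) := by
    unfold Fam.Tm
    rw [hcast]
    refine hdef.trans ?_
    have e : CH p' F.T (fun ω => (F.l ω, F.Z ω)) = CH F'.p F'.T (fun ω => (F'.l ω, F'.Z ω)) := by
      refine CH_congr hp'.nonneg (fun _ _ _ _ h => (Prod.ext_iff.mp h).1)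
        (fun _ _ _ _ h => (Prod.ext_iff.mp h).1) ?_ ?_
      · intro ω ω' _ _ h
        simp only [Prod.mk.injEq] at h
        refine Prod.ext h.1 ?_
        have e1 := h.1
        unfold Fam.l at e1
        simp only [Prod.mk.injEq] at e1
        show bb F.u F.d F.Z K 0 ω = bb F.u F.d F.Z K 0 ω'
        unfold bb Ln Fl
        rw [e1.1, e1.2, h.2]
      · intro ω ω' _ _ h
        have h1 := (Prod.ext_iff.mp h).1
        have h2 : bb F.u F.d F.Z K 0 ω = bb F.u F.d F.Z K 0 ω' := (Prod.ext_iff.mp h).2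
        unfold bb at h2
        exact Prod.ext h1 (Prod.ext_iff.mp h2).2
    rw [← e]
  have hgood := hG (M * K) hMK F' hTm hst
  have hX : CH F'.p (F'.X (M * K)) F'.W ≤ CH p' (F.X (M * K)) F.W := by
    refine CH_mono_cond hp'.nonneg ?_
    intro ω ω' _ _ e
    have e1 : F.T ω = F.T ω' := (Prod.ext_iff.mp e).1
    have e2 : bb F.u F.d F.Z K 0 ω = bb F.u F.d F.Z K 0 ω' := (Prod.ext_iff.mp e).2
    exact Prod.ext e1 (Prod.ext_iff.mp e2).2
  have hD : CH F'.p (F'.D (M * K)) F'.Z = CH p' (Fl F.d (M * K)) (bb F.u F.d F.Z K 0) := rfl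
  rw [hD, hcast] at hgood
  have h3 := mul_le_mul_of_nonneg_left hX ha0
  -- the gain
  have h4 : c * TT' - c * TT ≤ R / 2 * (M * K) := by
    have h5 : TT' - TT ≤ θ * (M * K) := by linarith
    have h6 := mul_le_mul_of_nonneg_left h5 hc0.le
    have h7 : c * (θ * (M * K)) ≤ c * (R / (2 * c) * (M * K)) :=
      mul_le_mul_of_nonneg_left (mul_le_mul_of_nonneg_right hθ2 hJ0) hc0.le
    have h8 : c * (R / (2 * c) * (M * K)) = R / 2 * (M * K) := by field_simp
    linarith
  have h9 : 0 < R / 4 * (M * K) := mul_pos (by linarith) (by linarith)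
  linarith

end Pool.STE
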